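import Mathlib
import Pool.Agent.H71.EQ.Targets

/-!
# Equidistribution of admissible tuples ordered by radical, with a power saving: targets

`MP_7ecdd4_nt`, `n = k + 1 ≥ 3`.  Every `T_XXX : Prop` is to be proved as a theorem
`pf_XXX : T_XXX` in its own file, other targets (also those of `Pool.Agent.H71.EQ.Targets`,
`Pool.Agent.H38.EQ.Targets`) being hypotheses.
-/

set_option autoImplicit false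

open Pool.Agent.H38.AE.Statement Pool.Agent.H38.AT MeasureTheory Filter
open Pool.Agent.H71.EQ

namespace Pool.Agent.H72.EQQ

/-- the modulus for the primes which divide `E` -/
def qE (E : ℕ) : ℕ := ∏ p ∈ E.primeFactors, p ^ (E.factorization p + 2)

/-- the vectors which satisfy the local conditions at the primes dividing `E` and violate the local
condition at all primes dividing `m` -/
def Bad (k E m : ℕ) : Set (Fin k → ℤ) :=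
  {v | (∀ p : ℕ, p.Prime → p ∣ E → Loc p (E.factorization p) (ext v)) ∧
    ∀ p : ℕ, p.Prime → p ∣ m → ¬ Loc p 0 (ext v)}

/-- the density of `Bad k E m` -/
noncomputable def bd (k E m : ℕ) : ℝ :=
  (∏ p ∈ E.primeFactors, wloc (k + 1) p (E.factorization p)) *
    ∏ p ∈ m.primeFactors, (1 - wloc (k + 1) p 0)

/-- the moduli of the Moebius sum -/
def Md (E N : ℕ) : Finset ℕ := (Finset.Icc 1 N).filter fun m => Squarefree m ∧ m.Coprime E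

/-! ## A. fixed excess -/

/-- QRS: Riemann sums over a coset, with an error term. `A` is the region, `W` its boundary
layer. -/
def T_QRS : Prop := ∀ (k q : ℕ) (a : Fin k → ℤ) (R B L : ℝ) (A W : Set (Fin k → ℝ))
  (g : (Fin k → ℝ) → ℝ), 1 ≤ q → 0 < R → Bornology.IsBounded A → MeasurableSet A →
  MeasurableSet W → volume W ≠ ⊤ → Measurable g → (∀ z, z ∉ A → g z = 0) → (∀ z, |g z| ≤ B) →
  0 ≤ L →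
  (∀ y z, (∀ i, |y i - z i| ≤ q / R) → y ∈ A → z ∈ A → |g y - g z| ≤ L) →
  (∀ y z, (∀ i, |y i - z i| ≤ q / R) → y ∈ A → z ∉ A → y ∈ W ∧ z ∈ W) →
  |(∑' v : Fin k → ℤ, if (∀ i, (q : ℤ) ∣ v i - a i) then g (fun i => (v i : ℝ) / R) else 0) -
    (R / q) ^ k * ∫ z, g z| ≤ (R / q) ^ k * (L * (volume A).toReal + B * (volume W).toReal)

/-- WLY: the boundary layer of the region. -/
def T_WLY : Prop := ∀ k : ℕ, 2 ≤ k → ∃ C : ℝ, 0 < C ∧ ∀ (E : ℕ) (κ lam s : ℝ), 1 ≤ E → 0 < κ →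
  κ < 1 → 1 ≤ lam → 0 < s → s ≤ 1 →
  MeasurableSet (Reg k E κ lam) ∧ Bornology.IsBounded (Reg k E κ lam) ∧
  (volume (Reg k E κ lam)).toReal ≤ C ∧
  ∃ W : Set (Fin k → ℝ), MeasurableSet W ∧ volume W ≠ ⊤ ∧
    (volume W).toReal ≤ C * lam ^ k * s ^ (1 / 2 : ℝ) ∧
    ∀ y z, (∀ i, |y i - z i| ≤ s) → y ∈ Reg k E κ lam → z ∉ Reg k E κ lam → y ∈ W ∧ z ∈ W

/-- LPA: the Lipschitz constant of `arg` on the region. -/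
def T_LPA : Prop := ∀ k : ℕ, 2 ≤ k → ∃ C : ℝ, 0 < C ∧ ∀ (E : ℕ) (κ lam s : ℝ), 1 ≤ E → 0 < κ →
  κ < 1 → 1 ≤ lam → 0 < s → s ≤ 1 → ∀ y z, (∀ i, |y i - z i| ≤ s) → y ∈ Reg k E κ lam →
  z ∈ Reg k E κ lam → ‖arg E y - arg E z‖ ≤ C * E * (κ ^ 2)⁻¹ * lam ^ (k + 1) * s

/-- MOB: the Moebius identity. -/
def T_MOB : Prop := ∀ (k E : ℕ) (v : Fin k → ℤ), 1 ≤ E → (∀ i, ext v i ≠ 0) → ∃ N₀ : ℕ,
  ∀ N : ℕ, N₀ ≤ N → ∑ m ∈ Md E N, (ArithmeticFunction.moebius m : ℝ) *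
    (Bad k E m).indicator (fun _ => (1 : ℝ)) v = (Fix k E).indicator (fun _ => (1 : ℝ)) v

/-- BDC: the number of the vectors which are bad at all primes dividing `m`. -/
def T_BDC : Prop := ∀ (k m : ℕ) (R : ℝ), 2 ≤ k → Squarefree m → 1 ≤ R →
  {v : Fin k → ℤ | (∀ i, ext v i ≠ 0 ∧ |(ext v i : ℝ)| ≤ R) ∧
    ∀ p : ℕ, p.Prime → p ∣ m → ¬ Loc p 0 (ext v)}.Finite ∧
  ({v : Fin k → ℤ | (∀ i, ext v i ≠ 0 ∧ |(ext v i : ℝ)| ≤ R) ∧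
    ∀ p : ℕ, p.Prime → p ∣ m → ¬ Loc p 0 (ext v)}.ncard : ℝ) ≤
    ((k : ℝ) + 1) ^ (2 * m.primeFactors.card) * (2 * R) ^ k * (m : ℝ) ^ (-(4 / 3) : ℝ)

/-- CRB: classes of bad vectors. -/
def T_CRB : Prop := ∀ k E m : ℕ, 1 ≤ k → 1 ≤ E → Squarefree m → m.Coprime E →
  (∀ v u : Fin k → ℤ, (fun i => v i + ((qE E * m ^ 2 : ℕ) : ℤ) * u i) ∈ Bad k E m ↔
    v ∈ Bad k E m) ∧
  ({v : Fin k → ZMod (qE E * m ^ 2) | (fun i => ((v i).val : ℤ)) ∈ Bad k E m}.ncard : ℝ) =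
    bd k E m * ((qE E * m ^ 2 : ℕ) : ℝ) ^ k

/-- DEN: the local density of bad vectors, and an upper bound for the local densities. -/
def T_DEN : Prop := ∀ k p : ℕ, 2 ≤ k → p.Prime →
  (0 ≤ 1 - wloc (k + 1) p 0 ∧ 1 - wloc (k + 1) p 0 ≤ ((k : ℝ) + 1) ^ 2 / (p : ℝ) ^ 2) ∧
  ∀ j : ℕ, 1 ≤ j → 0 ≤ wloc (k + 1) p j ∧ wloc (k + 1) p j ≤ ((k : ℝ) + 1) / (p : ℝ) ^ (j + 1)

/-- SMA: the sum over large squarefree numbers. -/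
def T_SMA : Prop := ∀ a : ℝ, 0 ≤ a → ∃ C : ℝ, 0 < C ∧ ∀ (D : ℝ) (F : Finset ℕ), 1 ≤ D →
  (∀ m ∈ F, Squarefree m ∧ D < (m : ℝ)) →
  ∑ m ∈ F, a ^ m.primeFactors.card * (m : ℝ) ^ (-(4 / 3) : ℝ) ≤ C * D ^ (-(1 / 4) : ℝ)

/-- PRQ: the Moebius sum of the densities. -/
def T_PRQ : Prop := ∀ k : ℕ, 2 ≤ k → ∃ C : ℝ, 0 < C ∧ ∀ E N : ℕ, 1 ≤ E → 1 ≤ N →
  |∑ m ∈ Md E N, (ArithmeticFunction.moebius m : ℝ) * bd k E m - wt (k + 1) E| ≤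
    C * (N : ℝ) ^ (-(1 / 4) : ℝ)

/-- FXQ: Riemann sums over the tuples with excess `E`, with a power saving. -/
def T_FXQ : Prop := ∀ k : ℕ, 2 ≤ k → ∃ (C θ : ℝ) (a : ℕ), 0 < C ∧ 0 < θ ∧
  ∀ (E : ℕ) (κ lam R B L : ℝ) (f : (Fin (k + 1) → ℝ) → ℝ), 1 ≤ E → 0 < κ → κ < 1 → 1 ≤ lam →
  1 ≤ R → (∀ y, |f y| ≤ B) → (∀ y z, |f y - f z| ≤ L * ‖y - z‖) →
  |(∑' v : Fin k → ℤ, (Fix k E).indicator
      (fun v => (Reg k E κ lam).indicator (fun z => f (arg E z)) (fun i => (v i : ℝ) / R)) v) -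
    R ^ k * (wt (k + 1) E * ∫ z in Reg k E κ lam, f (arg E z))| ≤
    C * (B + L) * (E * κ⁻¹ * lam) ^ a * R ^ ((k : ℝ) - θ)

/-- FEQ: the tuples with excess `E` on the main region, with a power saving. -/
def T_FEQ : Prop := ∀ k : ℕ, 2 ≤ k → ∃ (C θ : ℝ) (a : ℕ), 0 < C ∧ 0 < θ ∧
  ∀ (E : ℕ) (κ lam X B L : ℝ) (f : (Fin (k + 1) → ℝ) → ℝ), 1 ≤ E → 0 < κ → κ < 1 → 1 ≤ lam →
  1 ≤ X → (∀ y, |f y| ≤ B) → (∀ y z, |f y - f z| ≤ L * ‖y - z‖) →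
  (SF k E κ lam X).Finite ∧
  |∑ᶠ x ∈ SF k E κ lam X, f (nrm x) -
    X ^ (1 - nu k) * (wt (k + 1) E * (E : ℝ) ^ (1 - nu k) *
      ∫ z in Reg k E κ lam, f (arg E z))| ≤
    C * (B + L) * (E * κ⁻¹ * lam) ^ a * X ^ (1 - nu k - θ)

/-! ## B. tails -/

/-- HTQ: radical at most `X`, squarefull part at most `Y`, large height, explicit in `Y`. -/
def T_HTQ : Prop := ∀ n : ℕ, 3 ≤ n → ∃ C : ℝ, 0 < C ∧
  ∀ (X Y lam : ℝ) (F : Finset (Fin n → ℤ)), 1 ≤ X → 1 ≤ Y → 1 ≤ lam →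
    (∀ x ∈ F, Admissible x ∧ (radical (∏ i, x i) : ℝ) ≤ X ∧
      (Pool.Agent.H82.AS.sq (Pool.Agent.H38.EQ.pr x) : ℝ) ≤ Y ∧
      lam * X ^ (1 / (n : ℝ)) ≤ (height x : ℝ)) →
    (F.card : ℝ) ≤ C * Y ^ 3 * lam ^ (-(1 / 2) : ℝ) * X ^ (1 - 1 / (n : ℝ))

/-- TGQ: no mass escapes, with a power saving. -/
def T_TGQ : Prop := ∀ n : ℕ, 3 ≤ n → ∃ ε₀ c C : ℝ, 0 < ε₀ ∧ 0 < c ∧ 0 < C ∧
  ∀ (X Y lam : ℝ) (F : Finset (Fin n → ℤ)), 1 ≤ X → 1 ≤ Y → 1 ≤ lam →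
    (∀ x ∈ F, Admissible x ∧ (radical (∏ i, x i) : ℝ) ≤ X ∧
      (height x : ℝ) ≤ X ^ (1 / (n : ℝ) + ε₀) ∧
      (Y < Pool.Agent.H82.AS.ex (Pool.Agent.H38.EQ.pr x) ∨
        lam * X ^ (1 / (n : ℝ)) ≤ (height x : ℝ))) →
    (F.card : ℝ) ≤ C * (Y ^ (-c) + Y ^ 6 * lam ^ (-(1 / 2) : ℝ) + X ^ (-c)) *
      X ^ (1 - 1 / (n : ℝ))

/-- SMQ: tuples with small radical, with a power saving. -/
def T_SMQ : Prop := ∀ k : ℕ, 2 ≤ k → ∃ ε₁ δ C : ℝ, 0 < ε₁ ∧ 0 < δ ∧ 0 < C ∧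
  ∀ X κ : ℝ, 1 ≤ X → κ ≤ 1 → X ^ (-δ) ≤ κ →
  {x : Fin (k + 1) → ℤ | Admissible x ∧ (rd x : ℝ) ≤ κ * X ∧
    (height x : ℝ) ≤ X ^ (nu k + ε₁)}.Finite ∧
  ({x : Fin (k + 1) → ℤ | Admissible x ∧ (rd x : ℝ) ≤ κ * X ∧
    (height x : ℝ) ≤ X ^ (nu k + ε₁)}.ncard : ℝ) ≤ C * (κ * X) ^ (1 - nu k)

/-- LHQ: the counted tuples are approximated by the sets `SF`, with a power saving. -/
def T_LHQ : Prop := ∀ (k : ℕ) (ε : ℝ), 2 ≤ k → 0 < ε → ε < 1 → ∃ ρ δ c C X₀ : ℝ, 0 < ρ ∧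
  0 < δ ∧ 0 < c ∧ 0 < C ∧ 3 ≤ X₀ ∧
  (∀ X : ℝ, 3 ≤ X → (Tuples k ε ρ X).Finite ∧
    ((Tuples k ε ρ X).ncard : ℝ) ≤ C * X ^ (1 - nu k)) ∧
  ∀ (X κ lam : ℝ) (Y : ℕ), X₀ ≤ X → X ^ (-δ) ≤ κ → κ < 1 → 1 ≤ lam → lam ≤ X → 1 ≤ Y →
  (∀ E ∈ Finset.Icc 1 Y, SF k E κ lam X ⊆ Tuples k ε ρ X) ∧
    ((Tuples k ε ρ X \ ⋃ E ∈ Finset.Icc 1 Y, SF k E κ lam X).ncard : ℝ) ≤
      C * ((Y : ℝ) ^ (-c) + (Y : ℝ) ^ 6 * lam ^ (-(1 / 2) : ℝ) + κ ^ (1 / 2 : ℝ) + X ^ (-c)) *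
        X ^ (1 - nu k)

/-- SEQ: the series over the excess. -/
def T_SEQ : Prop := ∀ k : ℕ, 2 ≤ k → ∃ c C : ℝ, 0 < c ∧ 0 < C ∧ ∀ (Y : ℝ) (F : Finset ℕ),
  1 ≤ Y → (∀ E ∈ F, Y ≤ (E : ℝ)) →
  ∑ E ∈ F, wt (k + 1) E * (E : ℝ) ^ (1 - nu k) ≤ C * Y ^ (-c)

/-- RHQ: the limit value is approximated by the main regions, with a power saving. -/
def T_RHQ : Prop := ∀ k : ℕ, 2 ≤ k → ∃ c C : ℝ, 0 < c ∧ 0 < C ∧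
  ∀ (Y : ℕ) (κ lam B : ℝ) (f : (Fin (k + 1) → ℝ) → ℝ), 1 ≤ Y → 0 < κ → κ < 1 → 1 ≤ lam →
  Continuous f → (∀ y, |f y| ≤ B) →
  |∑ E ∈ Finset.Icc 1 Y, wt (k + 1) E * (E : ℝ) ^ (1 - nu k) *
    (∫ z in Reg k E κ lam, f (arg E z)) - limitValue k f| ≤
    C * B * ((Y : ℝ) ^ (-c) + κ ^ (1 / 2 : ℝ) + Y * lam ^ (-(1 / 2) : ℝ))

/-! ## C. the theorem -/

/-- LMQ: equidistribution with a power saving. -/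
def T_LMQ : Prop := ∀ (k : ℕ) (ε : ℝ), 2 ≤ k → 0 < ε → ε < 1 → ∃ ρ δ C : ℝ, 0 < ρ ∧ 0 < δ ∧
  0 < C ∧ ∀ X : ℝ, 3 ≤ X → (Tuples k ε ρ X).Finite ∧
  ∀ (f : (Fin (k + 1) → ℝ) → ℝ) (B L : ℝ), (∀ y, |f y| ≤ B) →
    (∀ y z, |f y - f z| ≤ L * ‖y - z‖) →
    |X ^ (-(1 - nu k)) * ∑ᶠ x ∈ Tuples k ε ρ X, f (nrm x) - limitValue k f| ≤
      C * (B + L) * X ^ (-δ)

end Pool.Agent.H72.EQQ
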