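import Mathlib
import Pool.Agent.H72.EQQ.Targets
import Pool.Agent.H12.EQ.LIM

/-!
The limit for a fixed `ρ`: the last clause of `T_LHQ` gives the clause of `T_LHS` and of `T_LIM`.
-/

set_option autoImplicit false

open Pool.Agent.H38.AE.Statement Pool.Agent.H38.AT MeasureTheory Filter Pool.Agent.H71.EQ
open Pool.Agent.H12.EQ
open scoped Topology

namespace Pool.Agent.H72.EQQ

/-- the clause of `T_LHQ` for fixed constants -/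
def LHat (k : ℕ) (ε ρ δ c C X₀ : ℝ) : Prop :=
  ∀ (X κ lam : ℝ) (Y : ℕ), X₀ ≤ X → X ^ (-δ) ≤ κ → κ < 1 → 1 ≤ lam → lam ≤ X → 1 ≤ Y →
  (∀ E ∈ Finset.Icc 1 Y, SF k E κ lam X ⊆ Tuples k ε ρ X) ∧
    ((Tuples k ε ρ X \ ⋃ E ∈ Finset.Icc 1 Y, SF k E κ lam X).ncard : ℝ) ≤
      C * ((Y : ℝ) ^ (-c) + (Y : ℝ) ^ 6 * lam ^ (-(1 / 2) : ℝ) + κ ^ (1 / 2 : ℝ) + X ^ (-c)) *
        X ^ (1 - nu k)

/-- the clause of `T_LHS` for fixed `ρ` -/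
def LSat (k : ℕ) (ε ρ : ℝ) : Prop :=
  ∀ η : ℝ, 0 < η → ∃ Y₀ : ℕ, ∀ Y : ℕ, Y₀ ≤ Y →
  ∃ κ₀ lam₀ : ℝ, 0 < κ₀ ∧ κ₀ < 1 ∧ 1 ≤ lam₀ ∧ ∀ κ lam : ℝ, 0 < κ → κ ≤ κ₀ → lam₀ ≤ lam →
  ∀ᶠ X : ℝ in atTop, (∀ E ∈ Finset.Icc 1 Y, SF k E κ lam X ⊆ Tuples k ε ρ X) ∧
    ((Tuples k ε ρ X \ ⋃ E ∈ Finset.Icc 1 Y, SF k E κ lam X).ncard : ℝ) ≤
      η * X ^ (1 - nu k)

theorem ls_of_lh (k : ℕ) (ε ρ δ c C X₀ : ℝ) (hδ : 0 < δ) (hc : 0 < c) (hC : 0 < C)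
    (h : LHat k ε ρ δ c C X₀) : LSat k ε ρ := by
  intro η hη
  have hq : 0 < η / (4 * C) := by positivity
  -- the choice of `Y₀`
  have t1 : Tendsto (fun Y : ℕ => (Y : ℝ) ^ (-c)) atTop (𝓝 0) :=
    (tendsto_rpow_neg_atTop hc).comp tendsto_natCast_atTop_atTop
  obtain ⟨Y1, hY1⟩ := (Filter.eventually_atTop.1 (t1.eventually (gt_mem_nhds hq)))
  refine ⟨max Y1 1, ?_⟩
  intro Y hY
  have hYa : (Y : ℝ) ^ (-c) < η / (4 * C) := hY1 Y ((le_max_left _ _).trans hY)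
  have hYb : 1 ≤ Y := (le_max_right _ _).trans hY
  have hY0 : (0 : ℝ) < (Y : ℝ) ^ 6 := by
    have : (0 : ℝ) < Y := by exact_mod_cast hYb
    positivity
  -- the choice of `lam₀`
  have hq2 : 0 < η / (4 * C) / (Y : ℝ) ^ 6 := by positivity
  have t2 : Tendsto (fun x : ℝ => x ^ (-(1 / 2) : ℝ)) atTop (𝓝 0) :=
    tendsto_rpow_neg_atTop (by norm_num)
  obtain ⟨l1, hl1⟩ := (Filter.eventually_atTop.1 (t2.eventually (gt_mem_nhds hq2)))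
  -- the choice of `κ₀`
  refine ⟨min (1 / 2) ((η / (4 * C)) ^ 2), max l1 1, ?_, ?_, le_max_right _ _, ?_⟩
  · exact lt_min (by norm_num) (by positivity)
  · exact (min_le_left _ _).trans_lt (by norm_num)
  intro κ lam hκ hκ0 hlam
  have hl : lam ^ (-(1 / 2) : ℝ) < η / (4 * C) / (Y : ℝ) ^ 6 :=
    hl1 lam ((le_max_left _ _).trans hlam)
  have hl' : 1 ≤ lam := (le_max_right _ _).trans hlam
  have hκ1 : κ < 1 := (hκ0.trans (min_le_left _ _)).trans_lt (by norm_num)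
  have hκ2 : κ ^ (1 / 2 : ℝ) ≤ η / (4 * C) := by
    rw [← Real.sqrt_eq_rpow]
    exact (Real.sqrt_le_sqrt (hκ0.trans (min_le_right _ _))).trans
      (le_of_eq (Real.sqrt_sq hq.le))
  have t3 : Tendsto (fun x : ℝ => x ^ (-c)) atTop (𝓝 0) := tendsto_rpow_neg_atTop hc
  have t4 : Tendsto (fun x : ℝ => x ^ (-δ)) atTop (𝓝 0) := tendsto_rpow_neg_atTop hδ
  filter_upwards [eventually_ge_atTop X₀, eventually_ge_atTop lam, eventually_gt_atTop 0,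
    t3.eventually (gt_mem_nhds hq), t4.eventually (gt_mem_nhds hκ)] with X a1 a2 a3 a4 a5
  obtain ⟨b1, b2⟩ := h X κ lam Y a1 a5.le hκ1 hl' a2 hYb
  refine ⟨b1, b2.trans ?_⟩
  apply mul_le_mul_of_nonneg_right _ (Real.rpow_nonneg a3.le _)
  have e1 : (Y : ℝ) ^ 6 * lam ^ (-(1 / 2) : ℝ) ≤ η / (4 * C) := by
    rw [lt_div_iff₀ hY0] at hl
    linarith [mul_comm ((Y : ℝ) ^ 6) (lam ^ (-(1 / 2) : ℝ))]
  calc C * ((Y : ℝ) ^ (-c) + (Y : ℝ) ^ 6 * lam ^ (-(1 / 2) : ℝ) + κ ^ (1 / 2 : ℝ) + X ^ (-c))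
      ≤ C * (η / (4 * C) + η / (4 * C) + η / (4 * C) + η / (4 * C)) := by
        apply mul_le_mul_of_nonneg_left _ hC.le
        linarith
    _ = η := by field_simp; ring

theorem lim_core (h1 : T_FEL) (h3 : T_RHS) (k : ℕ) (ε ρ : ℝ) (hk : 2 ≤ k)
    (hfin : ∀ X : ℝ, 3 ≤ X → (Tuples k ε ρ X).Finite) (hL : LSat k ε ρ) :
    ∀ f : (Fin (k + 1) → ℝ) → ℝ, Continuous f → (∃ B : ℝ, ∀ y, |f y| ≤ B) →
      Tendsto (fun X : ℝ => X ^ (-(1 - nu k)) * ∑ᶠ x ∈ Tuples k ε ρ X, f (nrm x)) atTop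
        (𝓝 (limitValue k f)) := by
  intro f hf ⟨B, hB⟩
  have hB0 : 0 ≤ B := (abs_nonneg _).trans (hB 0)
  rw [Metric.tendsto_nhds]
  intro e he
  set η : ℝ := e / (B + 3) with hη
  have hη0 : 0 < η := by positivity
  have hηe : (B + 3) * η = e := by
    rw [hη]; field_simp
  obtain ⟨Y1, hY1⟩ := hL η hη0
  obtain ⟨Y2, hY2⟩ := h3 k hk f hf ⟨B, hB⟩ η hη0
  obtain ⟨κ1, lam1, a1, a2, a3, a4⟩ := hY1 (max Y1 Y2) (le_max_left _ _)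
  obtain ⟨κ2, lam2, b1, b2, b3, b4⟩ := hY2 (max Y1 Y2) (le_max_right _ _)
  set Y := max Y1 Y2 with hY
  set κ := min κ1 κ2 with hκ
  set lam := max lam1 lam2 with hlam
  have k0 : 0 < κ := lt_min a1 b1
  have k1 : κ < 1 := (min_le_left _ _).trans_lt a2
  have l1 : 1 ≤ lam := a3.trans (le_max_left _ _)
  have c1 := a4 κ lam k0 (min_le_left _ _) (le_max_left _ _)
  have c2 := b4 κ lam k0 (min_le_right _ _) (le_max_right _ _)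
  have c3 : Tendsto (fun X : ℝ => ∑ E ∈ Finset.Icc 1 Y,
      X ^ (-(1 - nu k)) * ∑ᶠ x ∈ SF k E κ lam X, f (nrm x)) atTop
      (𝓝 (∑ E ∈ Finset.Icc 1 Y, wt (k + 1) E * (E : ℝ) ^ (1 - nu k) *
        (∫ z in Reg k E κ lam, f (arg E z)))) :=
    tendsto_finsetSum _ fun E hE =>
      (h1 k E κ lam hk (Finset.mem_Icc.1 hE).1 k0 k1 l1 f hf ⟨B, hB⟩).2
  rw [Metric.tendsto_nhds] at c3
  filter_upwards [c1, c3 η hη0, eventually_ge_atTop (3 : ℝ)] with X d1 d2 d3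
  obtain ⟨d4, d5⟩ := d1
  have hX : 0 < X := by linarith
  have hp : 0 < X ^ (-(1 - nu k)) := Real.rpow_pos_of_pos hX _
  have hdis : ∀ E E', E ≠ E' → Disjoint (SF k E κ lam X) (SF k E' κ lam X) := by
    intro E E' hne
    rw [Set.disjoint_left]
    intro x hx hx'
    exact hne (hx.2.1.symm.trans hx'.2.1)
  have e1 := sum_split (fun x : Fin (k + 1) → ℤ => f (nrm x)) B (fun x => hB _)
    (Tuples k ε ρ X) (hfin X d3) Y (fun E => SF k E κ lam X) d4 hdis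
  have e2 : |X ^ (-(1 - nu k)) * ∑ᶠ x ∈ Tuples k ε ρ X, f (nrm x) -
      ∑ E ∈ Finset.Icc 1 Y, X ^ (-(1 - nu k)) * ∑ᶠ x ∈ SF k E κ lam X, f (nrm x)| ≤
      B * η := by
    rw [← Finset.mul_sum, ← mul_sub, abs_mul, abs_of_pos hp]
    refine (mul_le_mul_of_nonneg_left (e1.trans (mul_le_mul_of_nonneg_left d5 hB0))
      hp.le).trans (le_of_eq ?_)
    have : X ^ (-(1 - nu k)) * X ^ (1 - nu k) = 1 := by
      rw [← Real.rpow_add hX, neg_add_cancel, Real.rpow_zero]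
    calc X ^ (-(1 - nu k)) * (B * (η * X ^ (1 - nu k)))
        = B * η * (X ^ (-(1 - nu k)) * X ^ (1 - nu k)) := by ring
      _ = B * η := by rw [this, mul_one]
  rw [Real.dist_eq] at d2 ⊢
  rw [abs_le] at e2 c2
  rw [abs_lt] at d2 ⊢
  constructor <;> nlinarith [e2.1, e2.2, c2.1, c2.2, d2.1, d2.2]

end Pool.Agent.H72.EQQ
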