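import Mathlib
import Pool.Agent.H72.EQQ.Targets
import Pool.Agent.H71.EQ.Meas
import Pool.Agent.H82.EQ.Targets

/-!
# The distribution function of `max |x i| / rad ^ (1 / n)`, with a power saving: targets

`MP_7ecdd4_nt`, `n = k + 1 ≥ 3`.  Here `pz z = PR z` and `hz z` is the largest `|extR z i|`.
-/

set_option autoImplicit false

open Pool.Agent.H38.AE.Statement Pool.Agent.H38.AT MeasureTheory Filter
open Pool.Agent.H71.EQ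
open Pool.Agent.H82.EQ (pz hz)

namespace Pool.Agent.H72.EQQ

/-- QSL: sublevel sets of quadratic polynomials. -/
def T_QSL : Prop := ∀ q b c δ : ℝ, q ≠ 0 → 0 < δ →
  volume {x : ℝ | |q * x ^ 2 + b * x + c| ≤ δ} ≤ ENNReal.ofReal (4 * Real.sqrt (δ / |q|))

/-- PSL: level layers of `pz` relative to the power of one entry. -/
def T_PSL : Prop := ∀ k : ℕ, 2 ≤ k → ∃ C : ℝ, 0 < C ∧ ∀ (i : Fin k) (w δ : ℝ), 0 < δ →
  volume {z : Fin k → ℝ | (∀ j, |z j| ≤ 1) ∧ |pz z - w * |z i| ^ (k + 1)| ≤ δ} ≤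
    ENNReal.ofReal (C * Real.sqrt δ)

/-- HSL: level layers of `pz` relative to the power of `hz`. -/
def T_HSL : Prop := ∀ k : ℕ, 2 ≤ k → ∃ C : ℝ, 0 < C ∧ ∀ w δ : ℝ, 0 < δ →
  volume {z : Fin k → ℝ | hz z ≤ 1 ∧ |pz z - w * hz z ^ (k + 1)| ≤ δ} ≤
    ENNReal.ofReal (C * Real.sqrt δ)

/-- CSL: the volume between two cones. -/
def T_CSL : Prop := ∀ k : ℕ, 2 ≤ k → ∃ C : ℝ, 0 < C ∧ ∀ a b : ℝ, 0 < a → a < b →
  volume {z : Fin k → ℝ | pz z ≤ 1 ∧ a * pz z ^ nu k < hz z ∧ hz z ≤ b * pz z ^ nu k} ≤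
    ENNReal.ofReal (C * b ^ k * Real.sqrt ((a ^ (k + 1))⁻¹ - (b ^ (k + 1))⁻¹))

/-- TLT: the volume outside of a cone. -/
def T_TLT : Prop := ∀ k : ℕ, 2 ≤ k → ∃ C : ℝ, 0 < C ∧ ∀ T : ℝ, 1 ≤ T →
  volume {z : Fin k → ℝ | pz z ≤ 1 ∧ T * pz z ^ nu k < hz z} ≤
    ENNReal.ofReal (C * T ^ (-(1 / 2) : ℝ))

/-- MUH: the distribution function of the norm under the limit measure is Hoelder continuous. -/
def T_MUH : Prop := ∀ k : ℕ, 2 ≤ k → ∃ c C : ℝ, 0 < c ∧ 0 < C ∧ ∀ t s : ℝ, 0 < s → s ≤ 1 →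
  (limitMeasure k).real {y | t < ‖y‖ ∧ ‖y‖ ≤ t + s} ≤ C * s ^ c

/-- the clause of `T_LMQ` for fixed constants -/
def LMat (k : ℕ) (ε ρ δ C : ℝ) : Prop := ∀ X : ℝ, 3 ≤ X → (Tuples k ε ρ X).Finite ∧
  ∀ (f : (Fin (k + 1) → ℝ) → ℝ) (B L : ℝ), (∀ y, |f y| ≤ B) →
    (∀ y z, |f y - f z| ≤ L * ‖y - z‖) →
    |X ^ (-(1 - nu k)) * ∑ᶠ x ∈ Tuples k ε ρ X, f (nrm x) - limitValue k f| ≤
      C * (B + L) * X ^ (-δ)

/-- DFR: the distribution function of `height / rad ^ (1 / n)`, uniformly. -/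
def T_DFR : Prop := ∀ (k : ℕ) (ε ρ δ C : ℝ), 2 ≤ k → 0 < δ → 0 < C → LMat k ε ρ δ C →
  ∃ δ' C' : ℝ, 0 < δ' ∧ 0 < C' ∧ ∀ X t : ℝ, 3 ≤ X →
  |X ^ (-(1 - nu k)) *
    (({x | x ∈ Tuples k ε ρ X ∧ (height x : ℝ) ≤ t * (rd x : ℝ) ^ nu k}.ncard : ℕ) : ℝ) -
    (limitMeasure k).real {y | ‖y‖ ≤ t}| ≤ C' * X ^ (-δ')

end Pool.Agent.H72.EQQ
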