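import Mathlib
import Pool.Agent.H72.EQQ.LIC

/-!
The tuples whose height is larger than the power `1 / n + e` of the radical.
-/

set_option autoImplicit false

open Pool.Agent.H38.AE.Statement Pool.Agent.H38.AT MeasureTheory Filter Pool.Agent.H71.EQ

namespace Pool.Agent.H72.EQQ

lemma rd_ge_one {n : ℕ} (x : Fin n → ℤ) : (1 : ℝ) ≤ (rd x : ℝ) := by
  have : 1 ≤ rd x := by
    unfold rd radical
    exact Finset.prod_pos fun p hp => (Nat.prime_of_mem_primeFactors hp).pos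
  exact_mod_cast this

theorem viq (k : ℕ) (hk : 2 ≤ k) (ε ρ δ c C X₀ : ℝ) (hδ : 0 < δ) (hc : 0 < c) (hC : 0 < C)
    (hX₀ : 3 ≤ X₀)
    (hfin : ∀ X : ℝ, 3 ≤ X → (Tuples k ε ρ X).Finite ∧
      ((Tuples k ε ρ X).ncard : ℝ) ≤ C * X ^ (1 - nu k))
    (hL : LHat k ε ρ δ c C X₀) (e : ℝ) (he : 0 < e) :
    ∃ δ' C' : ℝ, 0 < δ' ∧ 0 < C' ∧ ∀ X : ℝ, 3 ≤ X →
      (({x | x ∈ Tuples k ε ρ X ∧ (rd x : ℝ) ^ (nu k + e) < (height x : ℝ)}.ncard : ℕ) : ℝ) ≤
        C' * X ^ (1 - nu k - δ') := by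
  obtain ⟨e', he'0, he'1, he'e⟩ : ∃ e' : ℝ, 0 < e' ∧ e' ≤ 1 ∧ e' ≤ e :=
    ⟨min e 1, lt_min he one_pos, min_le_right _ _, min_le_left _ _⟩
  obtain ⟨η, hη, h1, h2, h3⟩ : ∃ η : ℝ, 0 < η ∧ 16 * η ≤ δ ∧ 16 * η ≤ 1 ∧ 40 * η ≤ e' := by
    refine ⟨min (δ / 16) (min (1 / 16) (e' / 40)), by positivity, ?_, ?_, ?_⟩
    · have := min_le_left (δ / 16) (min (1 / 16) (e' / 40)); linarith
    · have := (min_le_right (δ / 16) (min (1 / 16) (e' / 40))).trans (min_le_left _ _); linarith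
    · have := (min_le_right (δ / 16) (min (1 / 16) (e' / 40))).trans (min_le_right _ _); linarith
  obtain ⟨d, hd, d1, d2, d3⟩ : ∃ d : ℝ, 0 < d ∧ d ≤ η * c ∧ d ≤ 2 * η ∧ d ≤ c :=
    ⟨min (η * c) (min (2 * η) c), by positivity, min_le_left _ _,
      (min_le_right _ _).trans (min_le_left _ _), (min_le_right _ _).trans (min_le_right _ _)⟩
  have hnu : 0 < nu k ∧ nu k ≤ 1 / 3 := by
    have hk2 : (2 : ℝ) ≤ k := by exact_mod_cast hk
    unfold nu
    exact ⟨by positivity, one_div_le_one_div_of_le (by norm_num) (by linarith)⟩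
  have hX₀0 : 0 < X₀ := by linarith
  refine ⟨d, C * (2 ^ c + 3) + C * X₀ ^ d, hd, by positivity, ?_⟩
  intro X hX
  have hX0 : 0 < X := by linarith
  have hX1 : 1 ≤ X := by linarith
  have hp : 0 < X ^ (1 - nu k) := Real.rpow_pos_of_pos hX0 _
  have hsplit : X ^ (1 - nu k - d) = X ^ (-d) * X ^ (1 - nu k) := by
    rw [← Real.rpow_add hX0]; congr 1; ring
  rcases lt_or_ge X X₀ with hlt | hge
  · have a1 : (({x | x ∈ Tuples k ε ρ X ∧ (rd x : ℝ) ^ (nu k + e) < (height x : ℝ)}.ncard : ℕ) : ℝ)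
        ≤ C * X ^ (1 - nu k) := by
      refine le_trans ?_ (hfin X hX).2
      have hs : {x | x ∈ Tuples k ε ρ X ∧ (rd x : ℝ) ^ (nu k + e) < (height x : ℝ)} ⊆
          Tuples k ε ρ X := fun x hx => hx.1
      exact_mod_cast Set.ncard_le_ncard hs (hfin X hX).1
    refine a1.trans ?_
    have a2 : 1 ≤ X₀ ^ d * X ^ (-d) := by
      rw [Real.rpow_neg hX0.le, ← div_eq_mul_inv, ← Real.div_rpow hX₀0.le hX0.le]
      exact Real.one_le_rpow ((one_le_div hX0).2 hlt.le) hd.le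
    rw [hsplit]
    calc C * X ^ (1 - nu k) = C * 1 * X ^ (1 - nu k) := by ring
      _ ≤ C * (X₀ ^ d * X ^ (-d)) * X ^ (1 - nu k) := by
          apply mul_le_mul_of_nonneg_right _ hp.le
          exact mul_le_mul_of_nonneg_left a2 hC.le
      _ ≤ (C * (2 ^ c + 3) + C * X₀ ^ d) * (X ^ (-d) * X ^ (1 - nu k)) := by
          have : 0 ≤ C * (2 ^ c + 3) * (X ^ (-d) * X ^ (1 - nu k)) := by positivity
          nlinarith
  · set Y : ℕ := ⌊X ^ η⌋₊ with hY
    have hXη : 1 ≤ X ^ η := Real.one_le_rpow hX1 hη.le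
    have hY1 : 1 ≤ Y := by
      rw [hY]; exact (Nat.one_le_floor_iff _).2 hXη
    have hYle : (Y : ℝ) ≤ X ^ η := Nat.floor_le (by linarith)
    have hYge : X ^ η / 2 ≤ (Y : ℝ) := by
      have b1 : X ^ η < (Y : ℝ) + 1 := Nat.lt_floor_add_one _
      have b2 : (1 : ℝ) ≤ Y := by exact_mod_cast hY1
      linarith
    have hκ1 : X ^ (-(16 * η)) < 1 := by
      apply Real.rpow_lt_one_of_one_lt_of_neg (by linarith)
      linarith
    obtain ⟨-, hcard⟩ := hL X (X ^ (-(16 * η))) (X ^ (16 * η)) Y hge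
      (Real.rpow_le_rpow_of_exponent_le hX1 (by linarith)) hκ1
      (Real.one_le_rpow hX1 (by linarith))
      (by
        calc X ^ (16 * η) ≤ X ^ (1 : ℝ) := Real.rpow_le_rpow_of_exponent_le hX1 h2
          _ = X := Real.rpow_one X) hY1
    have hsub : {x | x ∈ Tuples k ε ρ X ∧ (rd x : ℝ) ^ (nu k + e) < (height x : ℝ)} ⊆
        Tuples k ε ρ X \ ⋃ E ∈ Finset.Icc 1 Y, SF k E (X ^ (-(16 * η))) (X ^ (16 * η)) X := by
      intro x hx
      refine ⟨hx.1, ?_⟩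
      intro hmem
      rw [Set.mem_iUnion₂] at hmem
      obtain ⟨E, -, hE⟩ := hmem
      obtain ⟨-, -, r1, -, r2⟩ := hE
      have r3 := hx.2
      have s1 : X ^ (1 - 16 * η) < (rd x : ℝ) := by
        have : X ^ (-(16 * η)) * X = X ^ (1 - 16 * η) := by
          nth_rewrite 2 [← Real.rpow_one X]
          rw [← Real.rpow_add hX0]
          congr 1; ring
        rw [← this]; exact r1
      have s2 : X ^ (16 * η) * X ^ nu k ≤ (rd x : ℝ) ^ (nu k + e) := by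
        calc X ^ (16 * η) * X ^ nu k = X ^ (16 * η + nu k) := (Real.rpow_add hX0 _ _).symm
          _ ≤ X ^ ((1 - 16 * η) * (nu k + e')) := by
              apply Real.rpow_le_rpow_of_exponent_le hX1
              nlinarith [hnu.1, hnu.2]
          _ = (X ^ (1 - 16 * η)) ^ (nu k + e') := Real.rpow_mul hX0.le _ _
          _ ≤ (rd x : ℝ) ^ (nu k + e') :=
              Real.rpow_le_rpow (Real.rpow_nonneg hX0.le _) s1.le (by linarith [hnu.1])
          _ ≤ (rd x : ℝ) ^ (nu k + e) :=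
              Real.rpow_le_rpow_of_exponent_le (rd_ge_one x) (by linarith)
      linarith
    have hn : (({x | x ∈ Tuples k ε ρ X ∧ (rd x : ℝ) ^ (nu k + e) < (height x : ℝ)}.ncard : ℕ) : ℝ)
        ≤ ((Tuples k ε ρ X \ ⋃ E ∈ Finset.Icc 1 Y,
          SF k E (X ^ (-(16 * η))) (X ^ (16 * η)) X).ncard : ℝ) := by
      exact_mod_cast Set.ncard_le_ncard hsub ((hfin X hX).1.subset Set.sdiff_subset)
    refine hn.trans (hcard.trans ?_)
    have q1 : (Y : ℝ) ^ (-c) ≤ 2 ^ c * X ^ (-d) := by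
      have u1 : (Y : ℝ) ^ (-c) ≤ (X ^ η / 2) ^ (-c) :=
        Real.rpow_le_rpow_of_nonpos (by positivity) hYge (by linarith)
      refine u1.trans ?_
      rw [Real.div_rpow (by positivity) (by norm_num), ← Real.rpow_mul hX0.le,
        Real.rpow_neg (by norm_num : (0 : ℝ) ≤ 2), div_inv_eq_mul, mul_comm]
      apply mul_le_mul_of_nonneg_left _ (by positivity)
      apply Real.rpow_le_rpow_of_exponent_le hX1
      linarith [mul_neg η c]
    have q2 : (Y : ℝ) ^ 6 * (X ^ (16 * η)) ^ (-(1 / 2) : ℝ) ≤ X ^ (-d) := by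
      have u1 : (Y : ℝ) ^ 6 ≤ (X ^ η) ^ 6 := pow_le_pow_left₀ (by positivity) hYle 6
      calc (Y : ℝ) ^ 6 * (X ^ (16 * η)) ^ (-(1 / 2) : ℝ)
          ≤ (X ^ η) ^ 6 * (X ^ (16 * η)) ^ (-(1 / 2) : ℝ) :=
            mul_le_mul_of_nonneg_right u1 (by positivity)
        _ = X ^ (-(2 * η)) := by
            rw [← Real.rpow_natCast (X ^ η) 6, ← Real.rpow_mul hX0.le, ← Real.rpow_mul hX0.le,
              ← Real.rpow_add hX0]
            congr 1
            push_cast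
            ring
        _ ≤ X ^ (-d) := Real.rpow_le_rpow_of_exponent_le hX1 (by linarith)
    have q3 : (X ^ (-(16 * η))) ^ (1 / 2 : ℝ) ≤ X ^ (-d) := by
      rw [← Real.rpow_mul hX0.le]
      apply Real.rpow_le_rpow_of_exponent_le hX1
      linarith
    have q4 : X ^ (-c) ≤ X ^ (-d) := Real.rpow_le_rpow_of_exponent_le hX1 (by linarith)
    rw [hsplit]
    have hd0 : 0 < X ^ (-d) := Real.rpow_pos_of_pos hX0 _
    calc C * ((Y : ℝ) ^ (-c) + (Y : ℝ) ^ 6 * (X ^ (16 * η)) ^ (-(1 / 2) : ℝ) +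
          (X ^ (-(16 * η))) ^ (1 / 2 : ℝ) + X ^ (-c)) * X ^ (1 - nu k)
        ≤ C * (2 ^ c * X ^ (-d) + X ^ (-d) + X ^ (-d) + X ^ (-d)) * X ^ (1 - nu k) := by
          apply mul_le_mul_of_nonneg_right _ hp.le
          apply mul_le_mul_of_nonneg_left _ hC.le
          linarith
      _ ≤ (C * (2 ^ c + 3) + C * X₀ ^ d) * (X ^ (-d) * X ^ (1 - nu k)) := by
          have : 0 ≤ C * X₀ ^ d * (X ^ (-d) * X ^ (1 - nu k)) := by positivity
          nlinarith

end Pool.Agent.H72.EQQ
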