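import Mathlib
import Pool.Agent.H72.EQQ.LIC
import Pool.Agent.H72.EQQ.VIQ
import Pool.Agent.H72.EQQ.Targets2
import Pool.Agent.H12.EQQ.LMQ
import Pool.Agent.H71.EQ.Core

/-!
The final theorem from the targets.
-/

set_option autoImplicit false

open Pool.Agent.H38.AE.Statement Pool.Agent.H38.AT MeasureTheory Filter Pool.Agent.H71.EQ
open scoped Topology

namespace Pool.Agent.H72.EQQ

lemma conv (X a S I D δ : ℝ) (hX : 0 < X) (h : |X ^ (-a) * S - I| ≤ D * X ^ (-δ)) :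
    |S - X ^ a * I| ≤ D * X ^ (a - δ) := by
  have hp : 0 < X ^ a := Real.rpow_pos_of_pos hX _
  have e1 : S - X ^ a * I = X ^ a * (X ^ (-a) * S - I) := by
    have : X ^ a * (X ^ (-a) * S) = S := by
      rw [← mul_assoc, ← Real.rpow_add hX, add_neg_cancel, Real.rpow_zero, one_mul]
    rw [mul_sub, this]
  rw [e1, abs_mul, abs_of_pos hp]
  calc X ^ a * |X ^ (-a) * S - I| ≤ X ^ a * (D * X ^ (-δ)) := mul_le_mul_of_nonneg_left h hp.le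
    _ = D * (X ^ a * X ^ (-δ)) := by ring
    _ = D * X ^ (a - δ) := by rw [← Real.rpow_add hX]; rfl

/-- Equidistribution with a power saving, for given constants. -/
def EquiQ (k : ℕ) (ε ρ δ C : ℝ) : Prop :=
  (∀ X : ℝ, 3 ≤ X → (Tuples k ε ρ X).Finite) ∧
  (∀ (X B L : ℝ) (f : (Fin (k + 1) → ℝ) → ℝ), 3 ≤ X → (∀ y, |f y| ≤ B) →
    (∀ y z, |f y - f z| ≤ L * ‖y - z‖) →
    |∑ᶠ x ∈ Tuples k ε ρ X, f (nrm x) - X ^ (1 - nu k) * ∫ y, f y ∂(limitMeasure k)| ≤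
      C * (B + L) * X ^ (1 - nu k - δ)) ∧
  (∀ X t : ℝ, 3 ≤ X →
    |(({x | x ∈ Tuples k ε ρ X ∧ (height x : ℝ) ≤ t * (rd x : ℝ) ^ nu k}.ncard : ℕ) : ℝ) -
      X ^ (1 - nu k) * (limitMeasure k).real {y | ∀ i, |y i| ≤ t}| ≤ C * X ^ (1 - nu k - δ)) ∧
  (∀ e : ℝ, 0 < e → ∃ δ' C' : ℝ, 0 < δ' ∧ 0 < C' ∧ ∀ X : ℝ, 3 ≤ X →
    (({x | x ∈ Tuples k ε ρ X ∧ (rd x : ℝ) ^ (nu k + e) < (height x : ℝ)}.ncard : ℕ) : ℝ) ≤
      C' * X ^ (1 - nu k - δ')) ∧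
  (∀ A : Set (Fin (k + 1) → ℝ), limitMeasure k (frontier A) = 0 →
    Tendsto (fun X : ℝ => X ^ (-(1 - nu k)) *
      (({x | x ∈ Tuples k ε ρ X ∧ nrm x ∈ A}.ncard : ℕ) : ℝ)) atTop
      (𝓝 ((limitMeasure k).real A)))

theorem fin_core (hMEA : T_MEA) (hDIS : T_DIS) (hFEL : T_FEL) (hRHS : T_RHS)
    (hVFN : T_VFN) (hLHQ : T_LHQ) (hFEQ : T_FEQ) (hRHQ : T_RHQ) (hDFR : T_DFR)
    (k : ℕ) (hk : 2 ≤ k) (ε : ℝ) (hε : 0 < ε) (hε1 : ε < 1) :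
    ∃ ρ δ C : ℝ, 0 < ρ ∧ 0 < δ ∧ 0 < C ∧ EquiQ k ε ρ δ C := by
  obtain ⟨hfm, -, -, hint⟩ := hMEA k hk
  haveI := hfm
  obtain ⟨ρ, δ, c, C, X₀, hρ, hδ, hc, hC, hX₀, hfin, hL⟩ := hLHQ k ε hk hε hε1
  have hLat : LHat k ε ρ δ c C X₀ := hL
  obtain ⟨δ₁, C₁, hδ₁, hC₁, h₁⟩ := Pool.Agent.H12.EQQ.lmq_core hFEQ hRHQ hVFN k hk ε ρ δ c C X₀
    hδ hc hC hX₀ hfin hL
  have hLM : LMat k ε ρ δ₁ C₁ := fun X hX => ⟨(hfin X hX).1, h₁ X hX⟩
  obtain ⟨δ₂, C₂, hδ₂, hC₂, h₂⟩ := hDFR k ε ρ δ₁ C₁ hk hδ₁ hC₁ hLM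
  have hlim := lim_core hFEL hRHS k ε ρ hk (fun X hX => (hfin X hX).1)
    (ls_of_lh k ε ρ δ c C X₀ hδ hc hC hLat)
  have hE := equi_core hMEA hDIS k hk ε ρ (fun X hX => (hfin X hX).1) hlim
  refine ⟨ρ, min δ₁ δ₂, max C₁ C₂, hρ, lt_min hδ₁ hδ₂, lt_max_of_lt_left hC₁,
    fun X hX => (hfin X hX).1, ?_, ?_,
    fun e he => viq k hk ε ρ δ c C X₀ hδ hc hC hX₀ hfin hLat e he, hE.2.2.1⟩
  · intro X B L f hX hB hLip
    have hX0 : 0 < X := by linarith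
    have hX1 : 1 ≤ X := by linarith
    have hB0 : 0 ≤ B := (abs_nonneg _).trans (hB 0)
    have hL0 : 0 ≤ L := by
      have h1 := (abs_nonneg _).trans (hLip (fun _ => 1) 0)
      have h2 : ‖(fun _ : Fin (k + 1) => (1 : ℝ)) - 0‖ = 1 := by
        rw [sub_zero, pi_norm_const, norm_one]
      rw [h2, mul_one] at h1
      exact h1
    have hcont : Continuous f := by
      have : LipschitzWith (Real.toNNReal L) f := by
        apply LipschitzWith.of_dist_le_mul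
        intro y z
        rw [Real.dist_eq, dist_eq_norm, Real.coe_toNNReal L hL0]
        exact hLip y z
      exact this.continuous
    rw [hint f hcont ⟨B, hB⟩]
    refine (conv X (1 - nu k) _ _ _ _ hX0 (h₁ X hX f B L hB hLip)).trans ?_
    have e1 : X ^ (1 - nu k - δ₁) ≤ X ^ (1 - nu k - min δ₁ δ₂) :=
      Real.rpow_le_rpow_of_exponent_le hX1 (by linarith [min_le_left δ₁ δ₂])
    have e2 : C₁ * (B + L) ≤ max C₁ C₂ * (B + L) :=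
      mul_le_mul_of_nonneg_right (le_max_left _ _) (by linarith)
    exact mul_le_mul e2 e1 (Real.rpow_nonneg hX0.le _)
      (mul_nonneg (hC₁.le.trans (le_max_left _ _)) (by linarith))
  · intro X t hX
    have hX0 : 0 < X := by linarith
    have hX1 : 1 ≤ X := by linarith
    have hset : {y : Fin (k + 1) → ℝ | ∀ i, |y i| ≤ t} = {y | ‖y‖ ≤ t} := by
      ext y
      exact (norm_le_iff' y t).symm
    rw [hset]
    refine (conv X (1 - nu k) _ _ _ _ hX0 (h₂ X t hX)).trans ?_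
    have e1 : X ^ (1 - nu k - δ₂) ≤ X ^ (1 - nu k - min δ₁ δ₂) :=
      Real.rpow_le_rpow_of_exponent_le hX1 (by linarith [min_le_right δ₁ δ₂])
    exact mul_le_mul (le_max_right _ _) e1 (Real.rpow_nonneg hX0.le _)
      (hC₁.le.trans (le_max_left _ _))

end Pool.Agent.H72.EQQ
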