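import Mathlib
import Pool.Agent.H72.EQQ.Targets
import Pool.Agent.H72.EQD.RIE

/-!
Row QRS: Riemann sums over a coset with an error term.
-/

set_option autoImplicit false

open MeasureTheory Filter
open Pool.Agent.H72.EQD

namespace Pool.Agent.H72.EQQ

theorem pf_QRS : T_QRS := by
  intro k q a R B L A W g hq hR hAb hAm hWm hWf hgm hgA hgB hL hin hout
  have hB : 0 ≤ B := (abs_nonneg _).trans (hgB 0)
  have hq' : (0 : ℝ) < q := by exact_mod_cast hq
  obtain ⟨K, hK⟩ := hAb.subset_closedBall 0
  have hg0 : ∀ z, K < ‖z‖ → g z = 0 := by
    intro z hz
    apply hgA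
    intro hzA
    have := hK hzA
    rw [mem_closedBall_zero_iff] at this
    linarith
  have hAf : volume A ≠ ⊤ := hAb.measure_lt_top.ne
  have key : ∀ y, |g (cR q a R y) - g y| ≤
      (A.indicator (fun _ => L) y) + (W.indicator (fun _ => B) y) := by
    intro y
    have hnear : ∀ i, |cR q a R y i - y i| ≤ q / R := by
      intro i
      have h1 := cR_near hq a R hR y
      rw [pi_norm_le_iff_of_nonneg (by positivity)] at h1
      exact h1 i
    have hnear' : ∀ i, |y i - cR q a R y i| ≤ q / R := fun i => by
      rw [abs_sub_comm]; exact hnear i
    have i1 : 0 ≤ A.indicator (fun _ => L) y := Set.indicator_nonneg (fun _ _ => hL) y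
    have i2 : 0 ≤ W.indicator (fun _ => B) y := Set.indicator_nonneg (fun _ _ => hB) y
    by_cases h1 : cR q a R y ∈ A
    · by_cases h2 : y ∈ A
      · have := hin _ _ hnear h1 h2
        rw [Set.indicator_of_mem h2]
        linarith
      · have hW := (hout _ _ hnear h1 h2).2
        rw [Set.indicator_of_mem hW, hgA y h2, sub_zero]
        have := hgB (cR q a R y)
        linarith
    · by_cases h2 : y ∈ A
      · have hW := (hout _ _ hnear' h2 h1).1
        rw [Set.indicator_of_mem hW, hgA _ h1, zero_sub, abs_neg]
        have := hgB y
        linarith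
      · rw [hgA _ h1, hgA _ h2, sub_zero, abs_zero]
        linarith
  have hint : Integrable (fun y => (A.indicator (fun _ => L) y) + (W.indicator (fun _ => B) y)) := by
    apply Integrable.add
    · rw [integrable_indicator_iff hAm]
      exact integrableOn_const hAf enorm_ne_top
    · rw [integrable_indicator_iff hWm]
      exact integrableOn_const hWf enorm_ne_top
  have hgi : Integrable g := by
    have h1 : g = A.indicator g := by
      funext z
      by_cases hz : z ∈ A
      · rw [Set.indicator_of_mem hz]
      · rw [Set.indicator_of_notMem hz, hgA z hz]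
    rw [h1, integrable_indicator_iff hAm]
    refine Measure.integrableOn_of_bounded (M := B) hAf hgm.aestronglyMeasurable ?_
    exact Eventually.of_forall fun z => hgB z
  have hdi : Integrable (fun y => g (cR q a R y) - g y) := by
    refine hint.mono' ((gR_measurable q a R g).sub hgm).aestronglyMeasurable ?_
    exact Eventually.of_forall fun y => key y
  have hci : Integrable (fun y => g (cR q a R y)) := by
    have := hdi.add hgi
    refine this.congr (Eventually.of_forall fun y => ?_)
    simp
  have h3 : |(∫ y, g (cR q a R y)) - ∫ y, g y| ≤
      L * (volume A).toReal + B * (volume W).toReal := by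
    rw [← integral_sub hci hgi]
    calc |∫ y, (g (cR q a R y) - g y)| ≤ ∫ y, |g (cR q a R y) - g y| := by
          exact abs_integral_le_integral_abs
      _ ≤ ∫ y, ((A.indicator (fun _ => L) y) + (W.indicator (fun _ => B) y)) := by
          exact integral_mono hdi.abs hint key
      _ = L * (volume A).toReal + B * (volume W).toReal := by
          rw [integral_add, integral_indicator hAm, integral_indicator hWm, setIntegral_const,
            setIntegral_const, measureReal_def, measureReal_def, smul_eq_mul, smul_eq_mul,
            mul_comm L, mul_comm B]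
          · rw [integrable_indicator_iff hAm]
            exact integrableOn_const hAf enorm_ne_top
          · rw [integrable_indicator_iff hWm]
            exact integrableOn_const hWf enorm_ne_top
  rw [tsum_S a g K hg0 R hR]
  rw [gR_integral hq a g K hg0 R hR] at h3
  set S := ∑ z ∈ (Sfin q a K R hR).toFinset, g fun i => (z i : ℝ) / R with hS
  have h4 : S - (R / q) ^ k * ∫ z, g z = (R / q) ^ k * (((q : ℝ) / R) ^ k * S - ∫ z, g z) := by
    have : (R / q) ^ k * (((q : ℝ) / R) ^ k * S) = S := by
      rw [← mul_assoc, ← mul_pow]
      have : R / q * (q / R) = 1 := by field_simp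
      rw [this, one_pow, one_mul]
    rw [mul_sub, this]
  rw [h4, abs_mul, abs_of_pos (by positivity : (0 : ℝ) < (R / q) ^ k)]
  exact mul_le_mul_of_nonneg_left h3 (by positivity)

end Pool.Agent.H72.EQQ
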