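import Mathlib
import Pool.Agent.H72.EQQ.Targets2

/-!
# The pieces of `T_MUH`
-/

set_option autoImplicit false

open MeasureTheory Filter
open Pool.Agent.H71.EQ
open Pool.Agent.H82.EQ (pz hz)

namespace Pool.Agent.H72.EQQ

/-- TLE: large norm, for given excess. -/
def T_TLE : Prop := ∀ k : ℕ, 2 ≤ k → ∃ C : ℝ, 0 < C ∧ ∀ (E : ℕ) (T : ℝ), 1 ≤ E → 1 ≤ T →
  (E : ℝ) ≤ T ^ (((k : ℝ) + 1) / 2) →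
  volume {z : Fin k → ℝ | PR z ≤ 1 ∧ T < ‖arg E z‖} ≤ ENNReal.ofReal (C * T ^ (-(1 / 4) : ℝ))

/-- LYE: a layer, for given excess. -/
def T_LYE : Prop := ∀ k : ℕ, 2 ≤ k → ∃ C : ℝ, 0 < C ∧ ∀ (E : ℕ) (t s : ℝ), 1 ≤ E → 1 / 2 ≤ t →
  0 < s → s ≤ 1 / 2 →
  volume {z : Fin k → ℝ | PR z ≤ 1 ∧ t < ‖arg E z‖ ∧ ‖arg E z‖ ≤ t + s} ≤
    ENNReal.ofReal (C * (t + 1) ^ k * Real.sqrt (E * s))

/-- LWN: the norm is at least `1`. -/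
def T_LWN1 : Prop := ∀ (k E : ℕ), 2 ≤ k → 1 ≤ E →
  volume {z : Fin k → ℝ | PR z ≤ 1 ∧ ‖arg E z‖ < 1} = 0

end Pool.Agent.H72.EQQ
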