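import Mathlib
import Pool.Agent.H72.EQQ.Targets3

/-!
Row MUH: the glue.
-/

set_option autoImplicit false

open MeasureTheory Filter
open Pool.Agent.H71.EQ
open scoped ENNReal

namespace Pool.Agent.H72.EQQ

/-- the weight of `E` -/
noncomputable def wE (k E : ℕ) : ℝ := wt (k + 1) E * (E : ℝ) ^ (1 - nu k)

lemma nu_bd {k : ℕ} (hk : 2 ≤ k) : 0 < nu k ∧ nu k ≤ 1 / 3 := by
  have hk2 : (2 : ℝ) ≤ k := by exact_mod_cast hk
  unfold nu
  exact ⟨by positivity, one_div_le_one_div_of_le (by norm_num) (by linarith)⟩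

lemma wE_zero {k : ℕ} (hk : 2 ≤ k) : wE k 0 = 0 := by
  have h := (nu_bd hk).2
  unfold wE
  rw [Nat.cast_zero, Real.zero_rpow (by linarith), mul_zero]

lemma wE_nonneg (h6 : T_PRD) {k : ℕ} (hk : 2 ≤ k) (E : ℕ) : 0 ≤ wE k E := by
  rcases Nat.eq_zero_or_pos E with h | h
  · rw [h, wE_zero hk]
  · exact mul_nonneg (h6 k E hk h).2.2.1 (Real.rpow_nonneg (Nat.cast_nonneg _) _)

lemma mu_apply (k : ℕ) (S : Set (Fin (k + 1) → ℝ)) (hS : MeasurableSet S) :
    limitMeasure k S = ∑' E : ℕ, ENNReal.ofReal (wE k E) *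
      volume {z : Fin k → ℝ | PR z ≤ 1 ∧ arg E z ∈ S} := by
  unfold limitMeasure
  rw [Measure.sum_apply _ hS]
  apply tsum_congr
  intro E
  rw [Measure.smul_apply, smul_eq_mul, Measure.map_apply (measurable_arg E) hS,
    Measure.restrict_apply (measurable_arg E hS)]
  congr 2
  ext z
  simp only [Set.mem_inter_iff, Set.mem_preimage, Set.mem_ofPred_eq]
  exact and_comm

lemma cut (h6 : T_PRD) (h7 : T_VFN) {k : ℕ} (hk : 2 ≤ k) (c C : ℝ) (hc : 0 < c) (hC : 0 < C)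
    (hs : ∀ (Y : ℝ) (F : Finset ℕ), 1 ≤ Y → (∀ E ∈ F, Y ≤ (E : ℝ)) →
      ∑ E ∈ F, wt (k + 1) E * (E : ℝ) ^ (1 - nu k) ≤ C * Y ^ (-c))
    (hfm : limitMeasure k Set.univ ≠ ⊤)
    (S : Set (Fin (k + 1) → ℝ)) (hS : MeasurableSet S) (Y : ℕ) (hY : 1 ≤ Y) :
    (limitMeasure k).real S ≤ ∑ E ∈ Finset.Icc 1 Y, wE k E *
      volume.real {z : Fin k → ℝ | PR z ≤ 1 ∧ arg E z ∈ S} +
      volume.real {z : Fin k → ℝ | PR z ≤ 1} * (C * (Y : ℝ) ^ (-c)) := by
  have hV : volume {z : Fin k → ℝ | PR z ≤ 1} ≠ ⊤ := (h7 k hk).1.ne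
  have hvE : ∀ E : ℕ, volume {z : Fin k → ℝ | PR z ≤ 1 ∧ arg E z ∈ S} ≤
      volume {z : Fin k → ℝ | PR z ≤ 1} := fun E => measure_mono fun z hz => hz.1
  have hvE' : ∀ E : ℕ, volume {z : Fin k → ℝ | PR z ≤ 1 ∧ arg E z ∈ S} ≠ ⊤ := fun E =>
    ne_top_of_le_ne_top hV (hvE E)
  have hw := wE_nonneg h6 hk
  have hY0 : (1 : ℝ) ≤ Y := by exact_mod_cast hY
  -- the tail of the series
  have htail : ∀ F : Finset ℕ, ∑ E ∈ F, wE k (E + (Y + 1)) ≤ C * (Y : ℝ) ^ (-c) := by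
    intro F
    have h1 := hs Y (F.map (addRightEmbedding (Y + 1))) hY0 (by
      intro E hE
      rw [Finset.mem_map] at hE
      obtain ⟨e, -, rfl⟩ := hE
      simp only [addRightEmbedding_apply]
      push_cast
      have : (0 : ℝ) ≤ e := Nat.cast_nonneg _
      linarith)
    rw [Finset.sum_map] at h1
    exact h1
  have hsum : Summable fun E : ℕ => wE k (E + (Y + 1)) :=
    summable_of_sum_le (fun E => hw _) htail
  have hts : ∑' E : ℕ, wE k (E + (Y + 1)) ≤ C * (Y : ℝ) ^ (-c) :=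
    hsum.tsum_le_of_sum_le htail
  have hCY : 0 ≤ C * (Y : ℝ) ^ (-c) := by positivity
  have hfirst : 0 ≤ ∑ E ∈ Finset.Icc 1 Y, wE k E *
      volume.real {z : Fin k → ℝ | PR z ≤ 1 ∧ arg E z ∈ S} :=
    Finset.sum_nonneg fun E _ => mul_nonneg (hw E) measureReal_nonneg
  have hmain : limitMeasure k S ≤ ENNReal.ofReal (∑ E ∈ Finset.Icc 1 Y, wE k E *
      volume.real {z : Fin k → ℝ | PR z ≤ 1 ∧ arg E z ∈ S} +
      volume.real {z : Fin k → ℝ | PR z ≤ 1} * (C * (Y : ℝ) ^ (-c))) := by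
    rw [mu_apply k S hS, ← Summable.sum_add_tsum_nat_add' (k := Y + 1) ENNReal.summable,
      ENNReal.ofReal_add hfirst (mul_nonneg measureReal_nonneg hCY)]
    apply add_le_add
    · have e1 : ∑ E ∈ Finset.range (Y + 1), ENNReal.ofReal (wE k E) *
          volume {z : Fin k → ℝ | PR z ≤ 1 ∧ arg E z ∈ S} =
          ∑ E ∈ Finset.Icc 1 Y, ENNReal.ofReal (wE k E) *
          volume {z : Fin k → ℝ | PR z ≤ 1 ∧ arg E z ∈ S} := by
        symm
        apply Finset.sum_subset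
        · intro E hE
          rw [Finset.mem_Icc] at hE
          rw [Finset.mem_range]
          omega
        · intro E hE hE'
          rw [Finset.mem_range] at hE
          rw [Finset.mem_Icc] at hE'
          have : E = 0 := by omega
          rw [this, wE_zero hk, ENNReal.ofReal_zero, zero_mul]
      rw [e1, ENNReal.ofReal_sum_of_nonneg fun E _ => mul_nonneg (hw E) measureReal_nonneg]
      apply Finset.sum_le_sum
      intro E _
      rw [ENNReal.ofReal_mul (hw E)]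
      apply mul_le_mul_right
      unfold Measure.real
      rw [ENNReal.ofReal_toReal (hvE' E)]
    · calc ∑' E : ℕ, ENNReal.ofReal (wE k (E + (Y + 1))) *
            volume {z : Fin k → ℝ | PR z ≤ 1 ∧ arg (E + (Y + 1)) z ∈ S}
          ≤ ∑' E : ℕ, ENNReal.ofReal (wE k (E + (Y + 1))) *
            volume {z : Fin k → ℝ | PR z ≤ 1} :=
            ENNReal.tsum_le_tsum fun E => mul_le_mul_right (hvE _) _
        _ = (∑' E : ℕ, ENNReal.ofReal (wE k (E + (Y + 1)))) *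
            volume {z : Fin k → ℝ | PR z ≤ 1} := ENNReal.tsum_mul_right
        _ = ENNReal.ofReal (∑' E : ℕ, wE k (E + (Y + 1))) *
            volume {z : Fin k → ℝ | PR z ≤ 1} := by
            rw [ENNReal.ofReal_tsum_of_nonneg (fun E => hw _) hsum]
        _ ≤ ENNReal.ofReal (C * (Y : ℝ) ^ (-c)) * volume {z : Fin k → ℝ | PR z ≤ 1} :=
            mul_le_mul_left (ENNReal.ofReal_le_ofReal hts) _
        _ = ENNReal.ofReal (volume.real {z : Fin k → ℝ | PR z ≤ 1} * (C * (Y : ℝ) ^ (-c))) := by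
            rw [ENNReal.ofReal_mul measureReal_nonneg]
            unfold Measure.real
            rw [ENNReal.ofReal_toReal hV, mul_comm]
  unfold Measure.real at hmain ⊢
  exact ENNReal.toReal_le_of_le_ofReal (add_nonneg hfirst (mul_nonneg measureReal_nonneg hCY)) hmain

end Pool.Agent.H72.EQQ
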