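import Mathlib
import Pool.Agent.H72.EQQ.MUG

/-!
Row MUH: the distribution function of the norm under the limit measure is Hoelder continuous.
-/

set_option autoImplicit false

open MeasureTheory Filter
open Pool.Agent.H71.EQ
open scoped ENNReal

namespace Pool.Agent.H72.EQQ

lemma meas_layer (n : ℕ) (t s : ℝ) :
    MeasurableSet {y : Fin n → ℝ | t < ‖y‖ ∧ ‖y‖ ≤ t + s} :=
  (measurableSet_lt measurable_const measurable_norm).inter
    (measurableSet_le measurable_norm measurable_const)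

lemma floor_half (x : ℝ) (hx : 1 ≤ x) : 1 ≤ ⌊x⌋₊ ∧ (⌊x⌋₊ : ℝ) ≤ x ∧ x / 2 ≤ (⌊x⌋₊ : ℝ) := by
  have h1 : 1 ≤ ⌊x⌋₊ := (Nat.one_le_floor_iff _).2 hx
  refine ⟨h1, Nat.floor_le (by linarith), ?_⟩
  have b1 : x < (⌊x⌋₊ : ℝ) + 1 := Nat.lt_floor_add_one _
  have b2 : (1 : ℝ) ≤ (⌊x⌋₊ : ℝ) := by exact_mod_cast h1
  linarith

lemma floor_rpow (x c : ℝ) (hx : 1 ≤ x) (hc : 0 < c) :
    (⌊x⌋₊ : ℝ) ^ (-c) ≤ 2 ^ c * x ^ (-c) := by
  obtain ⟨-, -, h⟩ := floor_half x hx
  have u1 : (⌊x⌋₊ : ℝ) ^ (-c) ≤ (x / 2) ^ (-c) :=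
    Real.rpow_le_rpow_of_nonpos (by positivity) h (by linarith)
  refine u1.trans (le_of_eq ?_)
  rw [Real.div_rpow (by positivity) (by norm_num), Real.rpow_neg (by norm_num : (0 : ℝ) ≤ 2),
    div_inv_eq_mul, mul_comm]

theorem pf_MUH (h1 : T_TLE) (h2 : T_LYE) (h3 : T_LWN1) (h4 : T_SEQ) (h5 : T_MEA) (h6 : T_PRD)
    (h7 : T_VFN) : T_MUH := by
  intro k hk
  obtain ⟨C1, hC1, hT⟩ := h1 k hk
  obtain ⟨C2, hC2, hL⟩ := h2 k hk
  obtain ⟨c, C, hc, hC, hs⟩ := h4 k hk
  obtain ⟨hfm, -, -, -⟩ := h5 k hk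
  haveI := hfm
  have hfm' : limitMeasure k Set.univ ≠ ⊤ := measure_ne_top _ _
  have hk0 : (2 : ℝ) ≤ k := by exact_mod_cast hk
  have hkp : (0 : ℝ) < k := by linarith
  set M := (limitMeasure k).real Set.univ with hM
  have hM0 : 0 ≤ M := measureReal_nonneg
  set V := volume.real {z : Fin k → ℝ | PR z ≤ 1} with hV
  have hV0 : 0 ≤ V := measureReal_nonneg
  have hw := wE_nonneg h6 hk
  have hsumw : ∀ Y : ℕ, ∑ E ∈ Finset.Icc 1 Y, wE k E ≤ C := by
    intro Y
    have := hs 1 (Finset.Icc 1 Y) le_rfl (by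
      intro E hE
      rw [Finset.mem_Icc] at hE
      exact_mod_cast hE.1)
    rw [Real.one_rpow, mul_one] at this
    exact this
  obtain ⟨d, hd, hd1, hd2, hd3⟩ : ∃ d : ℝ, 0 < d ∧ d ≤ c / 16 ∧ d ≤ 1 / (32 * k) ∧ d ≤ 1 :=
    ⟨min (c / 16) (min (1 / (32 * k)) 1), by positivity, min_le_left _ _,
      (min_le_right _ _).trans (min_le_left _ _), (min_le_right _ _).trans (min_le_right _ _)⟩
  refine ⟨d, 2 * M + (C * C1 + V * (C * 2 ^ c)) + (C * (C2 * 2 ^ k) + V * (C * 2 ^ c)), hd,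
    ?_, ?_⟩
  · have : 0 < C * C1 := by positivity
    have h' : 0 ≤ V * (C * 2 ^ c) := by positivity
    have h'' : 0 ≤ C * (C2 * 2 ^ k) := by positivity
    linarith
  intro t s hs0 hs1
  have hsd : 0 < s ^ d := Real.rpow_pos_of_pos hs0 _
  have hA0 : 0 ≤ C * C1 + V * (C * 2 ^ c) := by positivity
  have hB0 : 0 ≤ C * (C2 * 2 ^ k) + V * (C * 2 ^ c) := by positivity
  set S := {y : Fin (k + 1) → ℝ | t < ‖y‖ ∧ ‖y‖ ≤ t + s} with hS
  have hSm : MeasurableSet S := meas_layer _ t s
  rcases lt_or_ge (1 / 2) s with hcase | hcase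
  · -- large `s`
    have e1 : (limitMeasure k).real S ≤ M := measureReal_mono (Set.subset_univ _)
    have e2 : 1 / 2 ≤ s ^ d := by
      calc (1 / 2 : ℝ) = (1 / 2) ^ (1 : ℝ) := (Real.rpow_one _).symm
        _ ≤ (1 / 2) ^ d := Real.rpow_le_rpow_of_exponent_ge (by norm_num) (by norm_num) hd3
        _ ≤ s ^ d := Real.rpow_le_rpow (by norm_num) hcase.le hd.le
    have e3 : M ≤ 2 * M * s ^ d := by nlinarith
    calc (limitMeasure k).real S ≤ 2 * M * s ^ d := e1.trans e3
      _ ≤ _ := by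
        apply mul_le_mul_of_nonneg_right _ hsd.le
        linarith
  rcases lt_or_ge (t + s) 1 with hts | hts
  · -- small norm
    have e1 : limitMeasure k S = 0 := by
      rw [mu_apply k S hSm, ENNReal.tsum_eq_zero]
      intro E
      rcases Nat.eq_zero_or_pos E with hE | hE
      · rw [hE, wE_zero hk, ENNReal.ofReal_zero, zero_mul]
      · apply mul_eq_zero_of_right
        refine measure_mono_null ?_ (h3 k E hk hE)
        intro z hz
        exact ⟨hz.1, hz.2.2.trans_lt hts⟩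
    have e2 : (limitMeasure k).real S = 0 := by
      unfold Measure.real
      rw [e1, ENNReal.toReal_zero]
    rw [e2]
    positivity
  have ht : 1 / 2 ≤ t := by linarith
  have hs1' : s ≤ 1 := hs1
  -- the threshold
  set T₀ := s ^ (-(1 / (8 * (k : ℝ)))) with hT₀
  have hT₀1 : 1 ≤ T₀ := Real.one_le_rpow_of_pos_of_le_one_of_nonpos hs0 hs1 (by
    have : 0 < 1 / (8 * (k : ℝ)) := by positivity
    linarith)
  rcases le_or_gt T₀ t with hbig | hsmall
  · -- large `t`
    have ht1 : 1 ≤ t := hT₀1.trans hbig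
    have ht0 : 0 < t := by linarith
    set x := t ^ (((k : ℝ) + 1) / 2) with hx
    have hx1 : 1 ≤ x := Real.one_le_rpow ht1 (by positivity)
    obtain ⟨y1, y2, -⟩ := floor_half x hx1
    have hcut := cut h6 h7 hk c C hc hC hs hfm' S hSm ⌊x⌋₊ y1
    have f1 : ∀ E ∈ Finset.Icc 1 ⌊x⌋₊, wE k E *
        volume.real {z : Fin k → ℝ | PR z ≤ 1 ∧ arg E z ∈ S} ≤
        wE k E * (C1 * t ^ (-(1 / 4) : ℝ)) := by
      intro E hE
      rw [Finset.mem_Icc] at hE
      apply mul_le_mul_of_nonneg_left _ (hw E)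
      have g1 := hT E t hE.1 ht1 ((Nat.cast_le.2 hE.2).trans y2)
      unfold Measure.real
      refine ENNReal.toReal_le_of_le_ofReal (by positivity) (le_trans (measure_mono ?_) g1)
      intro z hz
      exact ⟨hz.1, hz.2.1⟩
    have f2 : ∑ E ∈ Finset.Icc 1 ⌊x⌋₊, wE k E *
        volume.real {z : Fin k → ℝ | PR z ≤ 1 ∧ arg E z ∈ S} ≤ C * (C1 * t ^ (-(1 / 4) : ℝ)) := by
      refine (Finset.sum_le_sum f1).trans ?_
      rw [← Finset.sum_mul]
      exact mul_le_mul_of_nonneg_right (hsumw _) (by positivity)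
    have f3 := floor_rpow x c hx1 hc
    -- the powers of `t` against the power of `s`
    have p1 : t ^ (-(1 / 4) : ℝ) ≤ s ^ d := by
      calc t ^ (-(1 / 4) : ℝ) ≤ T₀ ^ (-(1 / 4) : ℝ) :=
            Real.rpow_le_rpow_of_nonpos (by linarith) hbig (by norm_num)
        _ = s ^ (1 / (32 * (k : ℝ))) := by
            rw [hT₀, ← Real.rpow_mul hs0.le]
            congr 1
            field_simp
            norm_num
        _ ≤ s ^ d := Real.rpow_le_rpow_of_exponent_ge hs0 hs1 hd2
    have p2 : x ^ (-c) ≤ s ^ d := by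
      calc x ^ (-c) = t ^ (-(((k : ℝ) + 1) / 2 * c)) := by
            rw [hx, ← Real.rpow_mul ht0.le]
            congr 1
            ring
        _ ≤ T₀ ^ (-(((k : ℝ) + 1) / 2 * c)) :=
            Real.rpow_le_rpow_of_nonpos (by linarith) hbig (by
              have : 0 ≤ ((k : ℝ) + 1) / 2 * c := by positivity
              linarith)
        _ = s ^ (1 / (8 * (k : ℝ)) * (((k : ℝ) + 1) / 2 * c)) := by
            rw [hT₀, ← Real.rpow_mul hs0.le]
            congr 1
            ring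
        _ ≤ s ^ d := by
            apply Real.rpow_le_rpow_of_exponent_ge hs0 hs1
            refine hd1.trans ?_
            rw [show 1 / (8 * (k : ℝ)) * (((k : ℝ) + 1) / 2 * c) =
              c / 16 * (((k : ℝ) + 1) / k) by field_simp; ring]
            have : 1 ≤ ((k : ℝ) + 1) / k := by
              rw [le_div_iff₀ hkp]; linarith
            have hc16 : 0 < c / 16 := by positivity
            nlinarith
    have f4 : (limitMeasure k).real S ≤ (C * C1 + V * (C * 2 ^ c)) * s ^ d := by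
      refine hcut.trans ?_
      calc _ ≤ C * (C1 * t ^ (-(1 / 4) : ℝ)) + V * (C * (2 ^ c * x ^ (-c))) := by
            apply add_le_add f2
            apply mul_le_mul_of_nonneg_left _ hV0
            exact mul_le_mul_of_nonneg_left f3 hC.le
        _ ≤ C * (C1 * s ^ d) + V * (C * (2 ^ c * s ^ d)) := by
            apply add_le_add
            · apply mul_le_mul_of_nonneg_left _ hC.le
              exact mul_le_mul_of_nonneg_left p1 hC1.le
            · apply mul_le_mul_of_nonneg_left _ hV0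
              apply mul_le_mul_of_nonneg_left _ hC.le
              exact mul_le_mul_of_nonneg_left p2 (by positivity)
        _ = _ := by ring
    refine f4.trans ?_
    apply mul_le_mul_of_nonneg_right _ hsd.le
    linarith
  · -- bounded `t`
    have ht0 : 0 < t := by linarith
    set x := s ^ (-(1 / 4) : ℝ) with hx
    have hx1 : 1 ≤ x := Real.one_le_rpow_of_pos_of_le_one_of_nonpos hs0 hs1 (by norm_num)
    obtain ⟨y1, y2, -⟩ := floor_half x hx1
    have hcut := cut h6 h7 hk c C hc hC hs hfm' S hSm ⌊x⌋₊ y1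
    have g0 : (t + 1) ^ k * Real.sqrt (x * s) ≤ 2 ^ k * s ^ (1 / 4 : ℝ) := by
      have a1 : (t + 1) ^ k ≤ (2 * T₀) ^ k :=
        pow_le_pow_left₀ (by linarith) (by linarith) k
      have a2 : T₀ ^ k = s ^ (-(1 / 8) : ℝ) := by
        rw [hT₀, ← Real.rpow_natCast, ← Real.rpow_mul hs0.le]
        congr 1
        field_simp
      have a3 : Real.sqrt (x * s) = s ^ (3 / 8 : ℝ) := by
        rw [Real.sqrt_eq_rpow, hx]
        nth_rewrite 2 [← Real.rpow_one s]
        rw [← Real.rpow_add hs0, ← Real.rpow_mul hs0.le]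
        norm_num
      calc (t + 1) ^ k * Real.sqrt (x * s) ≤ (2 * T₀) ^ k * Real.sqrt (x * s) :=
            mul_le_mul_of_nonneg_right a1 (Real.sqrt_nonneg _)
        _ = 2 ^ k * (s ^ (-(1 / 8) : ℝ) * s ^ (3 / 8 : ℝ)) := by
            rw [mul_pow, a2, a3]; ring
        _ = 2 ^ k * s ^ (1 / 4 : ℝ) := by
            rw [← Real.rpow_add hs0]; norm_num
    have f1 : ∀ E ∈ Finset.Icc 1 ⌊x⌋₊, wE k E *
        volume.real {z : Fin k → ℝ | PR z ≤ 1 ∧ arg E z ∈ S} ≤
        wE k E * (C2 * (2 ^ k * s ^ (1 / 4 : ℝ))) := by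
      intro E hE
      rw [Finset.mem_Icc] at hE
      apply mul_le_mul_of_nonneg_left _ (hw E)
      have g1 := hL E t s hE.1 ht hs0 hcase
      have g2 : Real.sqrt (E * s) ≤ Real.sqrt (x * s) :=
        Real.sqrt_le_sqrt (mul_le_mul_of_nonneg_right ((Nat.cast_le.2 hE.2).trans y2) hs0.le)
      unfold Measure.real
      refine ENNReal.toReal_le_of_le_ofReal (by positivity) (le_trans (measure_mono ?_) (g1.trans
        (ENNReal.ofReal_le_ofReal ?_)))
      · intro z hz
        exact ⟨hz.1, hz.2.1, hz.2.2⟩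
      · calc C2 * (t + 1) ^ k * Real.sqrt (E * s) ≤ C2 * (t + 1) ^ k * Real.sqrt (x * s) :=
              mul_le_mul_of_nonneg_left g2 (by positivity)
          _ = C2 * ((t + 1) ^ k * Real.sqrt (x * s)) := by ring
          _ ≤ _ := mul_le_mul_of_nonneg_left g0 hC2.le
    have f2 : ∑ E ∈ Finset.Icc 1 ⌊x⌋₊, wE k E *
        volume.real {z : Fin k → ℝ | PR z ≤ 1 ∧ arg E z ∈ S} ≤
        C * (C2 * (2 ^ k * s ^ (1 / 4 : ℝ))) := by
      refine (Finset.sum_le_sum f1).trans ?_
      rw [← Finset.sum_mul]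
      exact mul_le_mul_of_nonneg_right (hsumw _) (by positivity)
    have f3 := floor_rpow x c hx1 hc
    have p1 : s ^ (1 / 4 : ℝ) ≤ s ^ d := by
      apply Real.rpow_le_rpow_of_exponent_ge hs0 hs1
      refine hd2.trans ?_
      rw [div_le_div_iff₀ (by positivity) (by norm_num)]
      linarith
    have p2 : x ^ (-c) ≤ s ^ d := by
      calc x ^ (-c) = s ^ (1 / 4 * c) := by
            rw [hx, ← Real.rpow_mul hs0.le]
            congr 1
            ring
        _ ≤ s ^ d := Real.rpow_le_rpow_of_exponent_ge hs0 hs1 (by linarith)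
    have f4 : (limitMeasure k).real S ≤ (C * (C2 * 2 ^ k) + V * (C * 2 ^ c)) * s ^ d := by
      refine hcut.trans ?_
      calc _ ≤ C * (C2 * (2 ^ k * s ^ (1 / 4 : ℝ))) + V * (C * (2 ^ c * x ^ (-c))) := by
            apply add_le_add f2
            apply mul_le_mul_of_nonneg_left _ hV0
            exact mul_le_mul_of_nonneg_left f3 hC.le
        _ ≤ C * (C2 * (2 ^ k * s ^ d)) + V * (C * (2 ^ c * s ^ d)) := by
            apply add_le_add
            · apply mul_le_mul_of_nonneg_left _ hC.le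
              apply mul_le_mul_of_nonneg_left _ hC2.le
              exact mul_le_mul_of_nonneg_left p1 (by positivity)
            · apply mul_le_mul_of_nonneg_left _ hV0
              apply mul_le_mul_of_nonneg_left _ hC.le
              exact mul_le_mul_of_nonneg_left p2 (by positivity)
        _ = _ := by ring
    refine f4.trans ?_
    apply mul_le_mul_of_nonneg_right _ hsd.le
    linarith

end Pool.Agent.H72.EQQ
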